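import Pool.Agent.Run7.h529.TestRed

/-!
# What an incomplete compositional test for isomorphism leaves open is the whole problem

A test for isomorphism is given by the relation `E G H`: the test does not distinguish `G` and `H`.
Many tests are compositional: if no graph `X e` is distinguished from `Y e`, then the graphs which
one gets by substituting the graphs `X e`, resp. the graphs `Y e`, for the vertices `e` of a graph
`T` are not distinguished. We show that this is so for the Weisfeiler-Leman method of each dimension
and for the comparison of the numbers of homomorphisms from the graphs of a hereditary class
(`Compositional`); for example quantum isomorphism (planar graphs), the Lasserre and Sherali-Adams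
hierarchies and cospectrality of some kinds are of this form.

Theorem: if a compositional test is not complete, then the isomorphism problem for pairs of graphs
with the same number of vertices that the test does not distinguish is as hard as the isomorphism
problem of all pairs of graphs. So running the test first does not make the problem easier.

Idea of the proof. Let `A` and `B` be not isomorphic and not distinguished, with the same number of
vertices. Substitute `A` for the pairs of adjacent vertices of `G` and `B` for the pairs of
non-adjacent vertices in the triangular graph on all pairs. The resulting graphs are not
distinguished from each other, and they are isomorphic if and only if the original graphs are.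
-/

set_option autoImplicit false

namespace Pool.Agent.Results.MP_128e7d_lc.BlindTests

open Run7.h529 Pool.Agent.W185.SRG

/-- **Every incomplete compositional test is blind on a class of pairs for which isomorphism is as
hard as in general**, in particular the Weisfeiler-Leman method of every dimension and every
incomplete comparison of numbers of homomorphisms from the graphs in a hereditary class. -/
theorem result :
    (∀ E : GraphRel, Compositional E →
      (∃ (F : Type) (_ : Fintype F) (A B : SimpleGraph F), E A B ∧ IsEmpty (A ≃g B)) →
      AsHardAsGI fun p => p.1.1 = p.2.1 ∧ E (gr1 p) (gr2 p)) ∧
    (∀ k : ℕ, Compositional (WLEquivalent k) ∧
      AsHardAsGI fun p => p.1.1 = p.2.1 ∧ WLEquivalent k (gr1 p) (gr2 p)) ∧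
    (∀ 𝓕 : ∀ n : ℕ, Set (SimpleGraph (Fin n)), Hereditary 𝓕 → Compositional (HomEquiv 𝓕)) :=
  ⟨fun E hE hne => test_hard E hE hne,
    fun k => ⟨wl_compositional k, test_hard _ (wl_compositional k) (wl_blind k)⟩,
    fun _ h𝓕 => hom_compositional h𝓕⟩

end Pool.Agent.Results.MP_128e7d_lc.BlindTests
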