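import Pool.Agent.Run7.h529.Asym

/-!
# Certificates for isomorphism whose rejections are explained by few adjacency bits

Isomorphism of graphs on `n` vertices is certified by the `n!` bijections: a bijection that is not
an isomorphism is rejected because of two adjacency bits, one of each graph. Here an arbitrary
finite set `W` of certificates is considered, with an arbitrary acceptance condition `P w G H` such
that every rejection is explained by at most `t` adjacency bits of the two graphs
(`LocallyRefutable`): that is, `P w` is an arbitrary conjunction of tests (clauses, decision trees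
of depth `t`) that depend on `t` bits only, so that graph isomorphism is a disjunction of the
formulas `P w` in conjunctive normal form with `t` literals in each clause (a circuit of depth three
with bottom fan-in `t`).

Lower bound: for `t ≤ n ^ δ` at least `(n!) ^ ((2 - ε) / t)` certificates are needed. This holds
already for the isomorphism problem of bipartite graphs and for the one of split graphs (which are
chordal), and even if, besides accepting all isomorphic pairs in the class, the certificates only
reject the pairs in the class whose numbers of edges differ by one. For `t = 2` the bijections show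
that the bound is tight. (The starting result `MP_128e7d_lc.SchaeferCover` treats `t = 2`, where the
least number of certificates is `(1 - o(1)) n!`.)

Idea of the proof. Take the graphs with `n - l` rows and `l = (1 - 2 δ) log n` columns. There are few
multisets of rows, so that a random pair of such graphs is isomorphic with a probability which is not
too small. An isomorphic pair becomes a pair whose numbers of edges differ by one if any bit is
changed; and by the satisfiability coding lemma of Paturi, Pudlák and Zane a formula with `t`
literals per clause has few satisfying assignments that are isolated in this sense.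
-/

set_option autoImplicit false

namespace Pool.Agent.Results.MP_128e7d_lc.LocalCertificates

open Run7.h529

theorem result :
    (∀ (c : Bool) (ε : ℝ), 0 < ε → ∃ δ : ℝ, 0 < δ ∧ ∃ n₀ : ℕ,
      ∀ n t : ℕ, n₀ ≤ n → 1 ≤ t → (t : ℝ) ≤ (n : ℝ) ^ δ →
        ∀ (W : Type) [Fintype W] (P : W → SimpleGraph (Fin n) → SimpleGraph (Fin n) → Prop),
          (∀ w, LocallyRefutable (InClass c) t (P w)) →
          (∀ G H : SimpleGraph (Fin n), InClass c G → InClass c H → Nonempty (G ≃g H) →
            ∃ w, P w G H) →
          (∀ w (G H : SimpleGraph (Fin n)), InClass c G → InClass c H → P w G H →
            G.edgeSet.ncard ≠ H.edgeSet.ncard + 1 ∧ H.edgeSet.ncard ≠ G.edgeSet.ncard + 1) →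
          (n.factorial : ℝ) ^ ((2 - ε) / t) ≤ Fintype.card W) ∧
    ∀ n : ℕ, ∃ (W : Type) (_ : Fintype W)
      (P : W → SimpleGraph (Fin n) → SimpleGraph (Fin n) → Prop),
        Fintype.card W = n.factorial ∧ (∀ w, LocallyRefutable (fun _ => True) 2 (P w)) ∧
        ∀ G H : SimpleGraph (Fin n), Nonempty (G ≃g H) ↔ ∃ w, P w G H := by
  refine ⟨fun c ε hε => certificate_bound c ε hε, fun n => ?_⟩
  refine ⟨Equiv.Perm (Fin n), inferInstance, fun σ G H => ∀ u v, G.Adj u v ↔ H.Adj (σ u) (σ v),
    by rw [Fintype.card_perm, Fintype.card_fin], fun σ => bijections_certify n σ, ?_⟩
  intro G H
  constructor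
  · rintro ⟨φ⟩
    exact ⟨φ.toEquiv, fun u v => (φ.map_rel_iff (a := u) (b := v)).symm⟩
  · rintro ⟨σ, hσ⟩
    exact ⟨⟨σ, fun {u v} => (hσ u v).symm⟩⟩

end Pool.Agent.Results.MP_128e7d_lc.LocalCertificates
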