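import Pool.Agent.Run7.h33.LL.Three

/-!
# Graphs near the Moore bound have Weisfeiler-Leman dimension `O(log log n)`

Let `k ≥ 3` and let `G` be a graph with minimum degree `δ ≥ 2` and with `n ≤ A δ ^ k` vertices which
has no cycles of length at most `k` and no even cycles of length at most `2 k` (for example, a graph
of girth larger than `2 k`; the condition says that the bipartite double cover of `G` has girth larger
than `2 k`). Such a graph has at least about `δ ^ k` vertices. We show that the Weisfeiler-Leman
method of dimension `256 ^ k A (A (log A + 1) + log log n)` identifies `G` among all graphs. So for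
fixed `k` the graphs whose number of vertices is at most a constant times the Moore bound are
tested for isomorphism in time `n ^ O(log log n)`. Examples are the incidence graphs of the
generalized quadrangles (`k = 3`) and of the generalized hexagons (`k = 5`) of order `(s, t)` with
`s / t` and `t / s` bounded, their polarity graphs, cages of that size, and all graphs with
similar parameters, without any regularity. (For `k = 2` there is a better constant, see
`Pool.Agent.Run7.h33.LL.TwoMain`.)

Proof. Under the assumption a non-backtracking walk of length at most `k` is determined by its ends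
and the parity of its length. So the vertices that are recognized after the individualization of
some vertices form a set `K` that contains the vertices of all non-backtracking walks of length at
most `k` between its elements. Let `K₀ ⊆ K` be such closed sets, `M = K \ K₀` and `s = |M|`. If
`s < (δ / 4) ^ k` then there are at least `c s δ ^ k` non-backtracking walks of length `k` which
begin in `M` and leave `K` at once, and by the inequality of Cauchy and Schwarz at least
`c s ^ 2 δ ^ k / A` pairs of such walks have a common end. For all but a small part of the pairs the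
last edges are different, so that they form a walk `w = p₀, p₁, …, p₂ₖ = l`. We keep those with `l` in
a suitable subset `K₁` of `M` with `min (s, c δ)` elements such that `p₍ₖ₊₁₎` has distance `k - 1` from
no other element of `K₁`. There are about `δ ^ k` pairs `(v₁, v₂)` such that `v₁` can be reached from
`p₁` by a walk of length `k - 1` which leaves the walk `p` at once, and `v₂` is a neighbour of
`p₍ₖ₊₁₎` outside of the walk. A closed set that contains `K` and the pair contains `p₁` (between `w`
and `v₁`), `p₍ₖ₊₁₎` (between `l` and `v₂`) and `p₂` (between `p₁` and `p₍ₖ₊₁₎`). Conversely `p₂`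
determines everything: `p₁` is on the walk of length `k` from `p₂` to `v₁`, `p₍ₖ₊₁₎` is on the walk of
length `k` from `p₂` to `v₂`, `w` is the only neighbour of `p₁` in `K`, and `l` is determined by
`p₍ₖ₊₁₎`. So some pair generates at least `c s min (s, c δ)` new vertices, and `s` reaches
`(δ / 4) ^ k` after `O(log log n)` steps. Then one starts again with `K` in the place of `K₀`.
-/

set_option autoImplicit false

namespace Pool.Agent.Results.MP_128e7d_lc.NearMooreGraphs

open Pool.Agent.W185.SRG

/-- 1. Graphs with `n ≤ A δ ^ k` vertices and minimum degree `δ` without cycles of length at most `k`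
and without even cycles of length at most `2 k`, where `k ≥ 3`. 2. In particular, for fixed `k` and
`A` the dimension `C (log log n + 1)` is enough. -/
theorem result :
    (∀ (A k δ N : ℕ) (V W : Type) [Fintype V] [Fintype W] (G : SimpleGraph V) (H : SimpleGraph W),
      1 ≤ A → 3 ≤ k → 2 ≤ δ →
      (∀ (v : V) (c : G.Walk v v), c.IsCycle → k < c.length ∧ (Even c.length → 2 * k < c.length)) →
      (∀ v, δ ≤ (G.neighborSet v).ncard) → Fintype.card V ≤ A * δ ^ k →
      256 ^ k * A * (A * (Nat.log 2 A + 1) + Nat.log 2 (Nat.log 2 (Fintype.card V))) ≤ N →
      WLEquivalent N G H → Nonempty (G ≃g H)) ∧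
    (∀ A k : ℕ, 3 ≤ k → ∃ C : ℕ, ∀ (δ N : ℕ) (V W : Type) [Fintype V] [Fintype W]
      (G : SimpleGraph V) (H : SimpleGraph W), 2 ≤ δ →
      (∀ (v : V) (c : G.Walk v v), c.IsCycle → k < c.length ∧ (Even c.length → 2 * k < c.length)) →
      (∀ v, δ ≤ (G.neighborSet v).ncard) → Fintype.card V ≤ A * δ ^ k →
      C * (Nat.log 2 (Nat.log 2 (Fintype.card V)) + 1) ≤ N →
      WLEquivalent N G H → Nonempty (G ≃g H)) := by
  refine ⟨?_, ?_⟩
  · intro A k δ N V W _ _ G H hA hk hδ hG hd hn hN h
    exact Run7.h33.LL.main_three hk hδ hA hG hd hn hN h
  · intro A k hk
    refine ⟨256 ^ k * (A + 1) * ((A + 1) * (Nat.log 2 (A + 1) + 1) + 1), ?_⟩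
    intro δ N V W _ _ G H hδ hG hd hn hN h
    refine Run7.h33.LL.main_three (A := A + 1) hk hδ (Nat.le_add_left _ _) hG hd
      (hn.trans (Nat.mul_le_mul_right _ (Nat.le_succ A))) (le_trans ?_ hN) h
    obtain ⟨X, hX⟩ : ∃ X, X = (A + 1) * (Nat.log 2 (A + 1) + 1) := ⟨_, rfl⟩
    obtain ⟨l, hl⟩ : ∃ l, l = Nat.log 2 (Nat.log 2 (Fintype.card V)) := ⟨_, rfl⟩
    rw [← hX, ← hl]
    calc 256 ^ k * (A + 1) * (X + l) ≤ 256 ^ k * (A + 1) * ((X + 1) * (l + 1)) := by
          refine Nat.mul_le_mul_left _ ?_
          have e : (X + 1) * (l + 1) = X + l + (X * l + 1) := by ring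
          omega
      _ = _ := by ring

end Pool.Agent.Results.MP_128e7d_lc.NearMooreGraphs
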