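import Pool.Agent.Run7.h653.GI.Ff

set_option autoImplicit false

/-!
# Graph isomorphism in hereditary classes which are not monadically stable

Every hereditary class of finite graphs is given by forbidden finite induced subgraphs `H i`. If the
class contains, for some `r ≥ 1`, flipped star crossings or flipped clique crossings of every order
`k`, then the graph isomorphism problem restricted to the class is as hard as the general one: there
is a polynomial-time many-one reduction of graph isomorphism to it, so that it is in P if and only if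
graph isomorphism is in P, and NP-hard if and only if graph isomorphism is NP-hard.

This applies to all edge-stable hereditary classes which are not monadically dependent. Monadic
dependence is defined by the combinatorial characterisation of Dreier, Mählmann and Toruńczyk (STOC
2024): for every `r ≥ 1`, the class does not contain arbitrarily large flipped `r`-crossings or
comparability grids. A hereditary class is monadically stable if and only if it is edge-stable and
monadically dependent. Without edge-stability this fails for the permutation graphs (unless graph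
isomorphism is in P), which contain all comparability grids.

Idea of the proof. The isomorphism type of a graph `G` is coded by a bipartite graph all of whose
vertices have many neighbours, whose edges are replaced by paths (the roots being the vertices `a i`,
and the paths for the edges consisting of two paths of the crossing which meet in a root `b j`) and
whose layers are flipped. The layers cannot be recognised directly, but the pairs of adjacent vertices
which are not roots are those whose adjacency is exceptional in the set of vertices with the same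
neighbours up to eight, and from them the roots and all edges can be found.
-/

namespace Pool.Agent.Results.MP_128e7d_lc.NotMonadicallyStable

open Pool.Agent.H38.NP

/-! ### The graph isomorphism problem -/

/-- A pair of graphs, each given by the number of its vertices and a list of edges. -/
abbrev Inst : Type := (ℕ × List (ℕ × ℕ)) × (ℕ × List (ℕ × ℕ))

/-- The first graph of an instance. -/
def gr1 (p : Inst) : SimpleGraph (Fin p.1.1) := graphOf p.1.1 p.1.2

/-- The second graph of an instance. -/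
def gr2 (p : Inst) : SimpleGraph (Fin p.2.1) := graphOf p.2.1 p.2.2

/-- The two graphs of the instance are isomorphic. -/
def Iso (p : Inst) : Prop := Nonempty (gr1 p ≃g gr2 p)

/-- Graph isomorphism restricted to the class `C` of instances is as hard as in general: there is a
polynomial-time computable function with values in `C` that preserves and reflects isomorphism;
the problem restricted to `C` is in P if and only if the general one is, and the same is true for
NP-hardness. -/
def AsHardAsGI (C : Inst → Prop) : Prop :=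
  (∃ f : Inst → Inst, PolyTimeOn (fun _ => True) f ∧ ∀ p, C (f p) ∧ (Iso p ↔ Iso (f p))) ∧
  (InPOn C Iso ↔ InPOn (fun _ => True) Iso) ∧
  (NPHardOn C Iso ↔ NPHardOn (fun _ => True) Iso)

/-! ### Crossings and comparability grids -/

/-- The three kinds of crossings: star crossings, clique crossings and half-graph crossings. -/
inductive Kind
  | star
  | clique
  | half

/-- The vertices of the `r`-crossing over the linear order `ι` (for order `k`: `ι = Fin k`): the
roots `a i` and `b j`, and the paths `p i j 0, ..., p i j (r - 1)` for all `i` and `j`. -/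
inductive Vtx (ι : Type) (r : ℕ)
  | a (i : ι)
  | b (j : ι)
  | p (i j : ι) (l : Fin r)

/-- The `r + 2` layers: all roots `a i`; all `l`-th vertices of the paths; all roots `b j`. -/
def Vtx.layer {ι : Type} {r : ℕ} : Vtx ι r → Fin (r + 2)
  | .a _ => 0
  | .b _ => Fin.last (r + 1)
  | .p _ _ l => ⟨l.val + 1, by omega⟩

/-- The edges of the crossings (each edge in one direction). Star crossings: `a i` is adjacent to
`p i j 0`, `b j` to `p i j (r - 1)`, and `p i j 0, ..., p i j (r - 1)` is a path. Clique crossings: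
in addition, all neighbours of a root are adjacent to each other. Half-graph crossings: `a i` is
adjacent to `p i' j 0` for all `i ≤ i'`, and `b j` to `p i j' (r - 1)` for all `j ≤ j'`. -/
def Edge {ι : Type} [LinearOrder ι] {r : ℕ} (κ : Kind) : Vtx ι r → Vtx ι r → Prop
  | .a i, .p i' _ l => l.val = 0 ∧ (i = i' ∨ (κ = Kind.half ∧ i < i'))
  | .b j, .p _ j' l => l.val + 1 = r ∧ (j = j' ∨ (κ = Kind.half ∧ j < j'))
  | .p i j l, .p i' j' l' => (i = i' ∧ j = j' ∧ l.val + 1 = l'.val) ∨
      (κ = Kind.clique ∧ ((l.val = 0 ∧ l'.val = 0 ∧ i = i' ∧ j ≠ j') ∨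
        (l.val + 1 = r ∧ l'.val + 1 = r ∧ j = j' ∧ i ≠ i')))
  | _, _ => False

/-- The crossing, layerwise flipped: the adjacency of two different vertices is reversed if the pair
of their layers belongs to `F`. -/
def crossing (κ : Kind) (ι : Type) [LinearOrder ι] (r : ℕ) (F : Set (Sym2 (Fin (r + 2)))) :
    SimpleGraph (Vtx ι r) where
  Adj u v := u ≠ v ∧ Xor (Edge κ u v ∨ Edge κ v u) (s(u.layer, v.layer) ∈ F)
  symm := ⟨by
    rintro u v ⟨h1, h2⟩
    refine ⟨h1.symm, ?_⟩
    rw [or_comm, Sym2.eq_swap]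
    exact h2⟩
  loopless := ⟨fun u h => h.1 rfl⟩

/-- The comparability grid: the pairs `(i, j)` and `(i', j')` are adjacent if `i = i'` or `j = j'` or
`i < i' ↔ j < j'`. -/
def compGrid (ι : Type) [LinearOrder ι] : SimpleGraph (ι × ι) :=
  SimpleGraph.fromRel fun u v => u.1 = v.1 ∨ u.2 = v.2 ∨ (u.1 < v.1 ↔ u.2 < v.2)

/-! ### Hereditary classes -/

section classes

variable {I : Type} {V : I → Type}

/-- Both graphs of the instance have no induced subgraph `H i`. (`H i ↪g G` is the type of the
isomorphisms of `H i` onto induced subgraphs of `G`.) -/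
def Free (H : ∀ i, SimpleGraph (V i)) (p : Inst) : Prop :=
  (∀ i, IsEmpty (H i ↪g gr1 p)) ∧ ∀ i, IsEmpty (H i ↪g gr2 p)

/-- The hereditary class of graphs given by the forbidden induced subgraphs `H i` is monadically
dependent (in the combinatorial form): for every `r ≥ 1` there is an order `k` such that all flipped
`r`-crossings of order `k` and the comparability grid of order `k` contain an induced subgraph
`H i`, that is, do not belong to the class. -/
def MonadicallyDependent (H : ∀ i, SimpleGraph (V i)) : Prop :=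
  ∀ r, 1 ≤ r → ∃ k : ℕ,
    (∀ (κ : Kind) (F : Set (Sym2 (Fin (r + 2)))), ∃ i, Nonempty (H i ↪g crossing κ (Fin k) r F)) ∧
    ∃ i, Nonempty (H i ↪g compGrid (Fin k))

/-- The class is edge-stable: for some `k`, no graph in the class with vertices `a i` and `b j` for
`i, j < k` (here `Sum.inl i` and `Sum.inr j`) satisfies that `a i` and `b j` are adjacent if and only
if `i ≤ j`. -/
def EdgeStable (H : ∀ i, SimpleGraph (V i)) : Prop :=
  ∃ k : ℕ, ∀ G : SimpleGraph (Fin k ⊕ Fin k), (∀ i j, G.Adj (.inl i) (.inr j) ↔ i ≤ j) →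
    ∃ i, Nonempty (H i ↪g G)

/-- For some `r ≥ 1`, the class contains flipped star crossings or flipped clique crossings of every
order `k`. -/
def ContainsCrossings (H : ∀ i, SimpleGraph (V i)) : Prop :=
  ∃ r, 1 ≤ r ∧ ∀ k : ℕ, ∃ κ : Kind, κ ≠ Kind.half ∧ ∃ F : Set (Sym2 (Fin (r + 2))),
    ∀ i, IsEmpty (H i ↪g crossing κ (Fin k) r F)

end classes

/-! ### Proofs -/

section

open Pool.Agent.Run7.h653

private def tk : Kind → MD.Kind
  | .star => .star
  | .clique => .clique
  | .half => .half

private theorem tk_half (κ : Kind) : tk κ = MD.Kind.half ↔ κ = Kind.half := by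
  cases κ <;> simp [tk]

private theorem tk_clique (κ : Kind) : tk κ = MD.Kind.clique ↔ κ = Kind.clique := by
  cases κ <;> simp [tk]

private def tv {ι : Type} {r : ℕ} : Vtx ι r → MD.Vtx ι r
  | .a i => .a i
  | .b i => .b i
  | .p i j l => .p i j l

private theorem tv_inj {ι : Type} {r : ℕ} {u v : Vtx ι r} : tv u = tv v ↔ u = v := by
  cases u <;> cases v <;> simp [tv]

private theorem tv_surj {ι : Type} {r : ℕ} (u : MD.Vtx ι r) : ∃ v, tv v = u := by
  cases u with
  | a i => exact ⟨.a i, rfl⟩
  | b i => exact ⟨.b i, rfl⟩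
  | p i j l => exact ⟨.p i j l, rfl⟩

private theorem tv_layer {ι : Type} {r : ℕ} (u : Vtx ι r) : (tv u).layer = u.layer := by
  cases u <;> rfl

private theorem tv_edge {ι : Type} [LinearOrder ι] {r : ℕ} (κ : Kind) (u v : Vtx ι r) :
    MD.Edge (tk κ) (tv u) (tv v) ↔ Edge κ u v := by
  cases u <;> cases v <;> simp [tv, MD.Edge, Edge, tk_half, tk_clique]

private theorem cross_iff {W : Type} {G : SimpleGraph W} {ι : Type} [LinearOrder ι] {r : ℕ}
    {κ : Kind} {F : Set (Sym2 (Fin (r + 2)))} :
    Nonempty (G ↪g crossing κ ι r F) ↔ Nonempty (G ↪g MD.crossing (tk κ) ι r F) := by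
  have key : ∀ u v : Vtx ι r, (MD.crossing (tk κ) ι r F).Adj (tv u) (tv v) ↔
      (crossing κ ι r F).Adj u v := by
    intro u v
    show (tv u ≠ tv v ∧ Xor (MD.Edge (tk κ) (tv u) (tv v) ∨ MD.Edge (tk κ) (tv v) (tv u))
      (s((tv u).layer, (tv v).layer) ∈ F)) ↔ (u ≠ v ∧ Xor (Edge κ u v ∨ Edge κ v u)
      (s(u.layer, v.layer) ∈ F))
    rw [Ne, tv_inj, tv_edge, tv_edge, tv_layer, tv_layer]
  let e : Vtx ι r ≃ MD.Vtx ι r := Equiv.ofBijective tv ⟨fun u v h => tv_inj.1 h, tv_surj⟩
  let f : crossing κ ι r F ≃g MD.crossing (tk κ) ι r F := ⟨e, fun {u v} => key u v⟩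
  exact ⟨fun ⟨g⟩ => ⟨g.trans f.toRelEmbedding⟩, fun ⟨g⟩ => ⟨g.trans f.symm.toRelEmbedding⟩⟩

private theorem cross_mono {W : Type} {G : SimpleGraph W} {r : ℕ} {κ : Kind}
    {F : Set (Sym2 (Fin (r + 2)))} {k k' : ℕ} (hk : k ≤ k')
    (h : Nonempty (G ↪g crossing κ (Fin k) r F)) : Nonempty (G ↪g crossing κ (Fin k') r F) :=
  cross_iff.2 (MD.emb_mono hk (cross_iff.1 h))

private theorem finite_kind : Finite Kind := by
  refine Finite.of_surjective (fun n : Fin 3 => if n = 0 then Kind.star else
    if n = 1 then Kind.clique else Kind.half) ?_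
  intro κ
  cases κ
  · exact ⟨0, rfl⟩
  · exact ⟨1, rfl⟩
  · exact ⟨2, rfl⟩

variable {I : Type} {V : I → Type}

/-- a single kind and a single flip -/
private theorem uniform {H : ∀ i, SimpleGraph (V i)} {r : ℕ}
    (h : ∀ k : ℕ, ∃ κ : Kind, κ ≠ Kind.half ∧ ∃ F : Set (Sym2 (Fin (r + 2))),
      ∀ i, IsEmpty (H i ↪g crossing κ (Fin k) r F)) :
    ∃ κ : Kind, κ ≠ Kind.half ∧ ∃ F : Set (Sym2 (Fin (r + 2))),
      ∀ k i, IsEmpty (H i ↪g crossing κ (Fin k) r F) := by
  by_contra hcon
  push Not at hcon
  have h2 : ∀ q : Kind × Set (Sym2 (Fin (r + 2))), ∃ k, q.1 ≠ Kind.half → ∃ i,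
      Nonempty (H i ↪g crossing q.1 (Fin k) r q.2) := by
    rintro ⟨κ, F⟩
    by_cases hκ : κ = Kind.half
    · exact ⟨0, fun h => absurd hκ h⟩
    · obtain ⟨k, i, hi⟩ := hcon κ hκ F
      exact ⟨k, fun _ => ⟨i, hi⟩⟩
  choose k hk using h2
  have := finite_kind
  obtain ⟨K, hK⟩ := (Set.finite_range k).bddAbove
  obtain ⟨κ, hκ, F, hF⟩ := h K
  obtain ⟨i, hi⟩ := hk (κ, F) hκ
  obtain ⟨e⟩ := cross_mono (hK ⟨(κ, F), rfl⟩) hi
  exact (hF i).false e

private theorem hard_cross {r : ℕ} (hr : 1 ≤ r) {κ : Kind} (hκ : κ ≠ Kind.half)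
    (F : Set (Sym2 (Fin (r + 2)))) {H : ∀ i, SimpleGraph (V i)}
    (hF : ∀ k i, IsEmpty (H i ↪g crossing κ (Fin k) r F)) : AsHardAsGI (Free H) := by
  have hκ' : tk κ ≠ MD.Kind.half := fun h => hκ ((tk_half κ).1 h)
  exact GI.gi_hard hr hκ' F fun k i =>
    not_nonempty_iff.1 fun h => (not_nonempty_iff.2 (hF k i)) (cross_iff.2 h)

private theorem hard {H : ∀ i, SimpleGraph (V i)} (h : ContainsCrossings H) :
    AsHardAsGI (Free H) := by
  obtain ⟨r, hr, h⟩ := h
  obtain ⟨κ, hκ, F, hF⟩ := uniform h
  exact hard_cross hr hκ F hF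

/-- the induced subgraphs of the crossings -/
private theorem hard_age {r : ℕ} (hr : 1 ≤ r) {κ : Kind} (hκ : κ ≠ Kind.half)
    (F : Set (Sym2 (Fin (r + 2)))) :
    AsHardAsGI fun p => (∃ k, Nonempty (gr1 p ↪g crossing κ (Fin k) r F)) ∧
      ∃ k, Nonempty (gr2 p ↪g crossing κ (Fin k) r F) := by
  have h1 := hard_cross (I := {q : Σ n, SimpleGraph (Fin n) //
    ∀ k, IsEmpty (q.2 ↪g crossing κ (Fin k) r F)}) (V := fun q => Fin q.1.1) hr hκ F
    (H := fun q => q.1.2) (fun k q => q.2 k)
  have key : ∀ {n : ℕ} (G : SimpleGraph (Fin n)),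
      (∀ q : {q : Σ n, SimpleGraph (Fin n) // ∀ k, IsEmpty (q.2 ↪g crossing κ (Fin k) r F)},
        IsEmpty (q.1.2 ↪g G)) ↔ ∃ k, Nonempty (G ↪g crossing κ (Fin k) r F) := by
    intro n G
    constructor
    · intro h
      by_contra hcon
      push Not at hcon
      exact (h ⟨⟨n, G⟩, hcon⟩).false (SimpleGraph.Embedding.refl)
    · rintro ⟨k, ⟨e⟩⟩ q
      exact ⟨fun e' => (q.2 k).false (e'.trans e)⟩
  have e : Free (fun q : {q : Σ n, SimpleGraph (Fin n) //
      ∀ k, IsEmpty (q.2 ↪g crossing κ (Fin k) r F)} => q.1.2) = fun p : Inst =>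
      (∃ k, Nonempty (gr1 p ↪g crossing κ (Fin k) r F)) ∧
      ∃ k, Nonempty (gr2 p ↪g crossing κ (Fin k) r F) := by
    funext p
    exact propext (and_congr (key _) (key _))
  rw [e] at h1
  exact h1

private theorem grid_eq (ι : Type) [LinearOrder ι] : compGrid ι = MD.compGrid ι := by
  ext u v
  rw [compGrid, SimpleGraph.fromRel_adj]
  constructor
  · rintro ⟨h, h1 | h1⟩
    · exact ⟨h, h1⟩
    · exact SimpleGraph.Adj.symm (⟨h.symm, h1⟩ : (MD.compGrid ι).Adj v u)
  · rintro ⟨h, h1⟩
    exact ⟨h, Or.inl h1⟩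

/-- half graphs -/
private theorem of_half {H : ∀ i, SimpleGraph (V i)} {k : ℕ}
    (hk : ∀ G : SimpleGraph (Fin k ⊕ Fin k), (∀ i j, G.Adj (.inl i) (.inr j) ↔ i ≤ j) →
      ∃ i, Nonempty (H i ↪g G)) {W : Type} (G : SimpleGraph W) (f : Fin k ⊕ Fin k → W)
    (hf : Function.Injective f) (h : ∀ i j, G.Adj (f (.inl i)) (f (.inr j)) ↔ i ≤ j) :
    ∃ i, Nonempty (H i ↪g G) := by
  obtain ⟨i, ⟨e⟩⟩ := hk (G.comap f) h
  exact ⟨i, ⟨e.trans (SimpleGraph.Embedding.comap ⟨f, hf⟩ G)⟩⟩

private theorem half_cross {H : ∀ i, SimpleGraph (V i)} {k : ℕ}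
    (hk : ∀ G : SimpleGraph (Fin k ⊕ Fin k), (∀ i j, G.Adj (.inl i) (.inr j) ↔ i ≤ j) →
      ∃ i, Nonempty (H i ↪g G)) {r : ℕ} (hr : 1 ≤ r) (F : Set (Sym2 (Fin (r + 2)))) {K : ℕ}
    (hK : k + 1 ≤ K) : ∃ i, Nonempty (H i ↪g crossing Kind.half (Fin K) r F) := by
  have l0 : (Vtx.a (ι := Fin K) (r := r) ⟨0, by omega⟩).layer = 0 := rfl
  by_cases hF : s((0 : Fin (r + 2)), ⟨1, by omega⟩) ∈ F
  · let f : Fin k ⊕ Fin k → Vtx (Fin K) r := fun x => match x with
      | .inl i => .p ⟨i, by omega⟩ ⟨i, by omega⟩ ⟨0, hr⟩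
      | .inr j => .a ⟨j + 1, by omega⟩
    refine of_half hk _ f ?_ ?_
    · rintro (i | i) (j | j) h
      · simp only [f, Vtx.p.injEq, Fin.mk.injEq] at h
        rw [Fin.ext h.1]
      · exact absurd h (by simp [f])
      · exact absurd h (by simp [f])
      · simp only [f, Vtx.a.injEq, Fin.mk.injEq] at h
        rw [Fin.ext (show i.1 = j.1 by omega)]
    · intro i j
      show (f (.inl i) ≠ f (.inr j) ∧ Xor (Edge Kind.half (f (.inl i)) (f (.inr j)) ∨
        Edge Kind.half (f (.inr j)) (f (.inl i))) (s((f (.inl i)).layer, (f (.inr j)).layer) ∈ F)) ↔ _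
      have e1 : s((f (.inl i)).layer, (f (.inr j)).layer) = s((0 : Fin (r + 2)), ⟨1, by omega⟩) := by
        rw [Sym2.eq_swap]
        rfl
      rw [e1]
      have e2 : (i ≤ j) ↔ ¬ (j.1 + 1 ≤ i.1) := by
        rw [Fin.le_def]
        omega
      simp only [f, Edge, hF, Xor, ne_eq, reduceCtorEq, not_false_iff, true_and, false_or,
        not_true, and_false, Fin.mk.injEq, Fin.mk_lt_mk, e2]
      omega
  · let f : Fin k ⊕ Fin k → Vtx (Fin K) r := fun x => match x with
      | .inl i => .a ⟨i, by omega⟩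
      | .inr j => .p ⟨j, by omega⟩ ⟨j, by omega⟩ ⟨0, hr⟩
    refine of_half hk _ f ?_ ?_
    · rintro (i | i) (j | j) h
      · simp only [f, Vtx.a.injEq, Fin.mk.injEq] at h
        rw [Fin.ext h]
      · exact absurd h (by simp [f])
      · exact absurd h (by simp [f])
      · simp only [f, Vtx.p.injEq, Fin.mk.injEq] at h
        rw [Fin.ext h.1]
    · intro i j
      show (f (.inl i) ≠ f (.inr j) ∧ Xor (Edge Kind.half (f (.inl i)) (f (.inr j)) ∨
        Edge Kind.half (f (.inr j)) (f (.inl i))) (s((f (.inl i)).layer, (f (.inr j)).layer) ∈ F)) ↔ _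
      have e1 : s((f (.inl i)).layer, (f (.inr j)).layer) = s((0 : Fin (r + 2)), ⟨1, by omega⟩) :=
        rfl
      rw [e1]
      have e2 : (i ≤ j) ↔ (i.1 = j.1 ∨ i.1 < j.1) := by
        rw [Fin.le_def]
        omega
      simp only [f, Edge, hF, Xor, ne_eq, reduceCtorEq, not_false_iff, true_and, and_true,
        false_and, or_false, Fin.mk.injEq, Fin.mk_lt_mk, e2]

private theorem half_grid {H : ∀ i, SimpleGraph (V i)} {k : ℕ}
    (hk : ∀ G : SimpleGraph (Fin k ⊕ Fin k), (∀ i j, G.Adj (.inl i) (.inr j) ↔ i ≤ j) →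
      ∃ i, Nonempty (H i ↪g G)) {K : ℕ} (hK : 2 * k + 2 ≤ K) :
    ∃ i, Nonempty (H i ↪g compGrid (Fin K)) := by
  rw [grid_eq]
  let f : Fin k ⊕ Fin k → Fin K × Fin K := fun x => match x with
    | .inl i => (⟨2 * i, by omega⟩, ⟨0, by omega⟩)
    | .inr j => (⟨2 * j + 1, by omega⟩, ⟨1, by omega⟩)
  refine of_half hk _ f ?_ ?_
  · rintro (i | i) (j | j) h
    · simp only [f, Prod.mk.injEq, Fin.mk.injEq] at h
      rw [Fin.ext (show i.1 = j.1 by omega)]
    · simp only [f, Prod.mk.injEq, Fin.mk.injEq] at h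
      omega
    · simp only [f, Prod.mk.injEq, Fin.mk.injEq] at h
      omega
    · simp only [f, Prod.mk.injEq, Fin.mk.injEq] at h
      rw [Fin.ext (show i.1 = j.1 by omega)]
  · intro i j
    show (f (.inl i) ≠ f (.inr j) ∧ ((f (.inl i)).1 = (f (.inr j)).1 ∨
      (f (.inl i)).2 = (f (.inr j)).2 ∨ ((f (.inl i)).1 < (f (.inr j)).1 ↔
        (f (.inl i)).2 < (f (.inr j)).2))) ↔ _
    simp only [f, ne_eq, Prod.mk.injEq, Fin.mk.injEq, Fin.mk_lt_mk, Fin.le_def]
    omega

private theorem contains {H : ∀ i, SimpleGraph (V i)} (he : EdgeStable H)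
    (hm : ¬ MonadicallyDependent H) : ContainsCrossings H := by
  obtain ⟨k0, hk0⟩ := he
  unfold MonadicallyDependent at hm
  push Not at hm
  obtain ⟨r, hr, h⟩ := hm
  refine ⟨r, hr, fun k => ?_⟩
  by_contra hcon
  push Not at hcon
  have h1 : ∀ (κ : Kind) (F : Set (Sym2 (Fin (r + 2)))),
      ∃ i, Nonempty (H i ↪g crossing κ (Fin (k + 2 * k0 + 2)) r F) := by
    intro κ F
    by_cases hκ : κ = Kind.half
    · subst hκ
      exact half_cross hk0 hr F (by omega)
    · obtain ⟨i, hi⟩ := hcon κ hκ F
      exact ⟨i, cross_mono (by omega) hi⟩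
  obtain ⟨i, hi⟩ := half_grid hk0 (show 2 * k0 + 2 ≤ k + 2 * k0 + 2 by omega)
  exact (h _ h1 i).false hi.some

end

/-- **Theorem.** (1) Let `H i` be any graphs. If the class of the graphs without induced
subgraphs `H i` contains, for some `r ≥ 1`, flipped star crossings or flipped clique crossings of
every order, then graph isomorphism restricted to this class is as hard as in general. (2) In
particular this holds if the class is edge-stable and not monadically dependent. (3) For every `r ≥ 1`,
for star crossings and for clique crossings and for every flip, graph isomorphism restricted to the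
induced subgraphs of the flipped crossings of all orders is as hard as in general. -/
theorem result :
    (∀ (I : Type) (V : I → Type) (H : ∀ i, SimpleGraph (V i)),
      (ContainsCrossings H → AsHardAsGI (Free H)) ∧
      (EdgeStable H → ¬ MonadicallyDependent H → AsHardAsGI (Free H))) ∧
    ∀ (r : ℕ) (κ : Kind) (F : Set (Sym2 (Fin (r + 2)))), 1 ≤ r → κ ≠ Kind.half →
      AsHardAsGI fun p => (∃ k, Nonempty (gr1 p ↪g crossing κ (Fin k) r F)) ∧
        ∃ k, Nonempty (gr2 p ↪g crossing κ (Fin k) r F) :=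
  ⟨fun _ _ _ => ⟨hard, fun h h' => hard (contains h h')⟩, fun _ _ F hr hκ => hard_age hr hκ F⟩

end Pool.Agent.Results.MP_128e7d_lc.NotMonadicallyStable
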